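import Pool.Agent.Helper60.BFT.Goals
import Pool.Agent.Helper60.BFT.AvBasic

/-!
# EDV: expected total deviation
-/

set_option autoImplicit false

open Finset Filter Topology MeasureTheory ProbabilityTheory
open Pool.Agent.Helper90.Twin (Ps Gz)

namespace Pool.Agent.Helper39.BFT

open Pool.Agent.Helper60.BFT

theorem Av_loc (M : ℕ) (f : (ℕ → ℕ) → ℝ)
    (hf : ∀ a a' : ℕ → ℕ, (∀ q ≤ M, a q = a' q) → f a = f a') :
    ∀ (L : List ℕ) (a a' : ℕ → ℕ), (∀ q ≤ M, a q = a' q) → Av L f a = Av L f a'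
  | [], a, a', h => hf a a' h
  | q :: L, a, a', h => by
    rw [Av_cons, Av_cons]
    congr 1
    apply Finset.sum_congr rfl
    intro c _
    apply Av_loc M f hf L
    intro p hp
    by_cases hpq : p = q
    · subst hpq
      simp
    · rw [Function.update_of_ne hpq, Function.update_of_ne hpq, h p hp]

theorem run_bound (s Y : ℕ → ℝ) (hs : ∀ n, |s n| ≤ 1) (hY : ∀ n, Y n = 0 ∨ Y n = 1) (n : ℕ) :
    |(run s Y n).1| ≤ n ∧ |(run s Y n).2| ≤ 1 := by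
  induction n with
  | zero => simp [run]
  | succ n ih =>
    obtain ⟨h1, h2⟩ := ih
    have hs' := hs n
    rcases hY n with h | h
    · simp only [run, h]
      constructor
      · push_cast
        have : (run s Y n).1 + 0 * s n * (run s Y n).2 = (run s Y n).1 := by ring
        rw [this]
        linarith
      · have : 0 * s n + (1 - 0) * (run s Y n).2 = (run s Y n).2 := by ring
        rw [this]
        exact h2
    · simp only [run, h]
      constructor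
      · push_cast
        have h3 : |1 * s n * (run s Y n).2| ≤ 1 := by
          rw [one_mul, abs_mul]
          exact mul_le_one₀ hs' (abs_nonneg _) h2
        have h4 := abs_add_le (run s Y n).1 (1 * s n * (run s Y n).2)
        linarith
      · have : 1 * s n + (1 - 1) * (run s Y n).2 = s n := by ring
        rw [this]
        exact hs'

theorem abs_chi (n : ℕ) : |chi n| ≤ 1 := by
  unfold chi
  split <;> simp

theorem YF_01 (K : ℕ) (Z : ℕ → ℕ) (β : ℕ → ℕ → (ℕ → ℕ) → ℕ) (r : ℕ) (a : ℕ → ℕ) (n : ℕ) :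
    YF K Z β r a n = 0 ∨ YF K Z β r a n = 1 := by
  unfold YF
  split
  · exact Or.inr rfl
  · exact Or.inl rfl

theorem YP_01 (K : ℕ) (Z : ℕ → ℕ) (β : ℕ → ℕ → (ℕ → ℕ) → ℕ) (a : ℕ → ℕ) (n : ℕ) :
    YP K Z β a n = 0 ∨ YP K Z β a n = 1 := by
  unfold YP
  split
  · exact Or.inr rfl
  · exact Or.inl rfl

theorem T0_bound (K : ℕ) (Z : ℕ → ℕ) (β : ℕ → ℕ → (ℕ → ℕ) → ℕ) (r : ℕ) (a : ℕ → ℕ) :
    |T0 K Z β r a| ≤ len K r := by
  unfold T0
  refine (Finset.abs_sum_le_sum_abs _ _).trans ?_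
  calc ∑ i ∈ range (len K r), |YF K Z β r a (r ^ K + i)| ≤ ∑ i ∈ range (len K r), (1 : ℝ) := by
        apply Finset.sum_le_sum
        intro i _
        rcases YF_01 K Z β r a (r ^ K + i) with h | h <;> simp [h]
    _ = len K r := by simp

theorem T1_bound (K : ℕ) (Z : ℕ → ℕ) (β : ℕ → ℕ → (ℕ → ℕ) → ℕ) (r : ℕ) (a : ℕ → ℕ) :
    |T1 K Z β r a| ≤ len K r := by
  unfold T1
  refine (Finset.abs_sum_le_sum_abs _ _).trans ?_
  calc ∑ i ∈ range (len K r), |chi (r ^ K + i) * YF K Z β r a (r ^ K + i)|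
        ≤ ∑ i ∈ range (len K r), (1 : ℝ) := by
        apply Finset.sum_le_sum
        intro i _
        rcases YF_01 K Z β r a (r ^ K + i) with h | h <;> simp [h, abs_chi]
    _ = len K r := by simp

theorem T2_bound (K : ℕ) (Z : ℕ → ℕ) (β : ℕ → ℕ → (ℕ → ℕ) → ℕ) (r : ℕ) (a : ℕ → ℕ) :
    |T2 K Z β r a| ≤ len K r := by
  unfold T2
  exact (run_bound _ _ (fun i => abs_chi _) (fun i => YF_01 K Z β r a _) (len K r)).1

theorem Rem_bound (K : ℕ) (Z : ℕ → ℕ) (β : ℕ → ℕ → (ℕ → ℕ) → ℕ) (r : ℕ) (a : ℕ → ℕ) :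
    |Rem K Z β r a| ≤ len K r := by
  unfold Rem
  refine (Finset.abs_sum_le_sum_abs _ _).trans ?_
  calc ∑ i ∈ range (len K r), |(|YF K Z β r a (r ^ K + i) - YP K Z β a (r ^ K + i)|)|
        ≤ ∑ i ∈ range (len K r), (1 : ℝ) := by
        apply Finset.sum_le_sum
        intro i _
        rcases YF_01 K Z β r a (r ^ K + i) with h | h <;>
        rcases YP_01 K Z β a (r ^ K + i) with h' | h' <;> simp [h, h']
    _ = len K r := by simp

theorem pow_diff (x : ℝ) (hx : 0 ≤ x) (n : ℕ) : (x + 1) ^ (n + 1) - x ^ (n + 1) ≤ (n + 1) * (x + 1) ^ n := by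
  induction n with
  | zero => simp
  | succ n ih =>
    have h1 : (x + 1) ^ (n + 1 + 1) - x ^ (n + 1 + 1)
        = (x + 1) * ((x + 1) ^ (n + 1) - x ^ (n + 1)) + x ^ (n + 1) := by ring
    have h2 : (x + 1) * ((x + 1) ^ (n + 1) - x ^ (n + 1)) ≤ (x + 1) * ((n + 1) * (x + 1) ^ n) :=
      mul_le_mul_of_nonneg_left ih (by linarith)
    have h3 : x ^ (n + 1) ≤ (x + 1) ^ (n + 1) := pow_le_pow_left₀ hx (by linarith) _
    have h4 : (x + 1) * ((n + 1) * (x + 1) ^ n) = (n + 1) * (x + 1) ^ (n + 1) := by ring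
    push_cast
    linarith

theorem len_cast (K r : ℕ) : (len K r : ℝ) = ((r : ℝ) + 1) ^ K - (r : ℝ) ^ K := by
  unfold len
  rw [Nat.cast_sub (Nat.pow_le_pow_left (Nat.le_succ r) K)]
  push_cast
  ring

theorem len_le (K r : ℕ) (hK : 1 ≤ K) (hr : 1 ≤ r) :
    (len K r : ℝ) ≤ (K * 2 ^ (K - 1)) * (r : ℝ) ^ (K - 1) := by
  obtain ⟨n, rfl⟩ : ∃ n, K = n + 1 := ⟨K - 1, by omega⟩
  rw [len_cast]
  have hr' : (1 : ℝ) ≤ r := by exact_mod_cast hr
  have h1 := pow_diff (r : ℝ) (by linarith) n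
  have h2 : ((r : ℝ) + 1) ^ n ≤ (2 * (r : ℝ)) ^ n := pow_le_pow_left₀ (by linarith) (by linarith) _
  have h3 : ((n : ℝ) + 1) * ((r : ℝ) + 1) ^ n ≤ ((n : ℝ) + 1) * (2 * (r : ℝ)) ^ n :=
    mul_le_mul_of_nonneg_left h2 (by positivity)
  simp only [Nat.add_sub_cancel]
  push_cast
  rw [mul_pow] at h3
  calc ((r : ℝ) + 1) ^ (n + 1) - (r : ℝ) ^ (n + 1) ≤ ((n : ℝ) + 1) * ((r : ℝ) + 1) ^ n := h1
    _ ≤ ((n : ℝ) + 1) * (2 ^ n * (r : ℝ) ^ n) := h3
    _ = _ := by ring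

/-- the sum of squares -/
theorem sumsq (A : ℝ) (hA : 0 ≤ A) (K r M : ℕ) (l : ℝ) (hl0 : 0 ≤ l) (hl : l ≤ A * (r : ℝ) ^ (K - 1))
    (hK : 3 ≤ K) (hr : 1 ≤ r) (hM : M ≤ r ^ K) (hrM : r ≤ M) :
    (((lg r M).map (fun q : ℕ => (12 * (l / (q : ℝ) + 1)) ^ 2)).sum)
      ≤ (17 * (A + 1)) ^ 2 * (r : ℝ) ^ (2 * K - 3) := by
  have hr' : (1 : ℝ) ≤ r := by exact_mod_cast hr
  unfold lg
  rw [Finset.sum_map_toList]
  have hsub : Ps M \ Ps r ⊆ Ioc r M := by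
    intro p hp
    have hp' : p ∈ lg r M := by
      unfold lg
      rwa [Finset.mem_toList]
    have := mem_lg.1 hp'
    rw [mem_Ioc]
    exact ⟨this.2.2.2, this.2.1⟩
  have h1 : ∀ q ∈ Ioc r M, (12 * (l / (q : ℝ) + 1)) ^ 2 ≤ 288 * l ^ 2 * ((q : ℝ) ^ 2)⁻¹ + 288 := by
    intro q hq
    rw [mem_Ioc] at hq
    have hq' : (0 : ℝ) < q := by exact_mod_cast (by omega : 0 < q)
    have e : l / (q : ℝ) = l * (q : ℝ)⁻¹ := div_eq_mul_inv _ _
    have h2 : (12 * (l / (q : ℝ) + 1)) ^ 2 = 144 * (l / q + 1) ^ 2 := by ring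
    have h3 : (l / (q : ℝ) + 1) ^ 2 ≤ 2 * (l / q) ^ 2 + 2 := by
      nlinarith [sq_nonneg (l / (q : ℝ) - 1)]
    have h4 : (l / (q : ℝ)) ^ 2 = l ^ 2 * ((q : ℝ) ^ 2)⁻¹ := by
      rw [e, mul_pow, inv_pow]
    rw [h2]
    rw [h4] at h3
    linarith
  have h2 : ∑ q ∈ Ps M \ Ps r, (12 * (l / (q : ℝ) + 1)) ^ 2
      ≤ ∑ q ∈ Ioc r M, (288 * l ^ 2 * ((q : ℝ) ^ 2)⁻¹ + 288) := by
    refine (Finset.sum_le_sum_of_subset_of_nonneg hsub (fun q _ _ => sq_nonneg _)).trans ?_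
    exact Finset.sum_le_sum h1
  have h3 : ∑ q ∈ Ioc r M, (288 * l ^ 2 * ((q : ℝ) ^ 2)⁻¹ + 288)
      = 288 * l ^ 2 * (∑ q ∈ Ioc r M, ((q : ℝ) ^ 2)⁻¹) + 288 * ((Ioc r M).card : ℝ) := by
    rw [Finset.sum_add_distrib, ← Finset.mul_sum, Finset.sum_const, nsmul_eq_mul]
    ring
  have h4 : ∑ q ∈ Ioc r M, ((q : ℝ) ^ 2)⁻¹ ≤ (r : ℝ)⁻¹ := by
    have := sum_Ioc_inv_sq_le_sub (α := ℝ) (k := r) (n := M) (by omega) hrM
    have h5 : (0 : ℝ) ≤ (M : ℝ)⁻¹ := by positivity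
    linarith
  have h5 : ((Ioc r M).card : ℝ) ≤ (r : ℝ) ^ K := by
    rw [Nat.card_Ioc]
    have : M - r ≤ r ^ K := by omega
    exact_mod_cast this
  have h6 : l ^ 2 ≤ (A * (r : ℝ) ^ (K - 1)) ^ 2 := pow_le_pow_left₀ hl0 hl 2
  have h7 : 288 * l ^ 2 * (∑ q ∈ Ioc r M, ((q : ℝ) ^ 2)⁻¹)
      ≤ 288 * (A * (r : ℝ) ^ (K - 1)) ^ 2 * (r : ℝ)⁻¹ := by
    have a1 : 0 ≤ ∑ q ∈ Ioc r M, ((q : ℝ) ^ 2)⁻¹ := Finset.sum_nonneg (fun _ _ => by positivity)
    calc 288 * l ^ 2 * (∑ q ∈ Ioc r M, ((q : ℝ) ^ 2)⁻¹) ≤ 288 * l ^ 2 * (r : ℝ)⁻¹ :=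
          mul_le_mul_of_nonneg_left h4 (by positivity)
      _ ≤ _ := by
          apply mul_le_mul_of_nonneg_right _ (by positivity)
          linarith
  have h8 : 288 * (A * (r : ℝ) ^ (K - 1)) ^ 2 * (r : ℝ)⁻¹ = 288 * A ^ 2 * (r : ℝ) ^ (2 * K - 3) := by
    have e : 2 * K - 3 + 1 = (K - 1) * 2 := by omega
    have e2 : ((r : ℝ) ^ (K - 1)) ^ 2 = (r : ℝ) ^ (2 * K - 3) * r := by
      rw [← pow_mul, ← e, pow_succ]
    rw [mul_pow, e2]
    field_simp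
  have h9 : (r : ℝ) ^ K ≤ (r : ℝ) ^ (2 * K - 3) := pow_le_pow_right₀ hr' (by omega)
  have h10 : (0 : ℝ) ≤ (r : ℝ) ^ (2 * K - 3) := by positivity
  have h11 : 288 * A ^ 2 + 288 ≤ (17 * (A + 1)) ^ 2 := by nlinarith
  calc ∑ q ∈ Ps M \ Ps r, (12 * (l / (q : ℝ) + 1)) ^ 2
      ≤ 288 * l ^ 2 * (∑ q ∈ Ioc r M, ((q : ℝ) ^ 2)⁻¹) + 288 * ((Ioc r M).card : ℝ) := by
        rw [← h3]
        exact h2
    _ ≤ 288 * A ^ 2 * (r : ℝ) ^ (2 * K - 3) + 288 * (r : ℝ) ^ (2 * K - 3) := by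
        rw [h8] at h7
        linarith
    _ = (288 * A ^ 2 + 288) * (r : ℝ) ^ (2 * K - 3) := by ring
    _ ≤ _ := mul_le_mul_of_nonneg_right h11 h10

/-- one statistic -/
theorem stat (hV : VARG) (hL : LAWG) (Ω : Type) [MeasurableSpace Ω] (μ : Measure Ω)
    [IsProbabilityMeasure μ] (ω : ℕ → Ω → ℕ) (hω : Uni μ ω) (L : List ℕ) (hnd : L.Nodup)
    (hpr : ∀ q ∈ L, q.Prime) (T : (ℕ → ℕ) → ℝ) (B : ℝ) (hB : ∀ a, |T a| ≤ B) (M : ℕ)
    (hM : ∀ a a' : ℕ → ℕ, (∀ q ≤ M, a q = a' q) → T a = T a') (c : ℕ → ℝ)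
    (hc : ∀ q ∈ L, ∀ a : ℕ → ℕ, ∀ u < q, ∀ v < q,
      |T (Function.update a q u) - T (Function.update a q v)| ≤ c q) :
    Integrable (fun w => |T (fun p => ω p w) - Av L T (fun p => ω p w)|) μ ∧
    ∫ w, |T (fun p => ω p w) - Av L T (fun p => ω p w)| ∂μ
      ≤ Real.sqrt ((L.map (fun q => c q ^ 2)).sum) := by
  have hpos : ∀ q ∈ L, 0 < q := fun q hq => (hpr q hq).pos
  have h1 := hL Ω μ ω hω L hnd hpr M (fun b => |T b - Av L T b|)
    (fun a a' h => by rw [hM a a' h, Av_loc M T hM L a a' h])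
    ⟨2 * B, fun a => by
      rw [abs_abs]
      have h2 := hB a
      have h3 := abs_Av_le_const L hpos T B a hB
      have h4 := abs_sub (T a) (Av L T a)
      linarith⟩
  refine ⟨h1.1, ?_⟩
  rw [h1.2]
  have h2 : ∀ a, Av L (fun b => |T b - Av L T b|) a ≤ Real.sqrt ((L.map (fun q => c q ^ 2)).sum) :=
    fun a => hV L hnd hpos T c hc a
  calc ∫ w, Av L (fun b => |T b - Av L T b|) (fun p => ω p w) ∂μ
      ≤ ∫ w, Real.sqrt ((L.map (fun q => c q ^ 2)).sum) ∂μ := by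
        apply integral_mono_of_nonneg
        · exact Filter.Eventually.of_forall (fun w => Av_nonneg _ _ _ (fun b => abs_nonneg _))
        · exact integrable_const _
        · exact Filter.Eventually.of_forall (fun w => h2 _)
    _ = _ := by simp

theorem int4 {Ω : Type} [MeasurableSpace Ω] (μ : Measure Ω) (f0 f1 f2 f3 : Ω → ℝ)
    (h0 : Integrable f0 μ) (h1 : Integrable f1 μ) (h2 : Integrable f2 μ) (h3 : Integrable f3 μ) :
    ∫ w, (f0 w + f1 w + f2 w + f3 w) ∂μ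
      = ∫ w, f0 w ∂μ + ∫ w, f1 w ∂μ + ∫ w, f2 w ∂μ + ∫ w, f3 w ∂μ := by
  have a1 : ∫ w, (f0 w + f1 w + f2 w + f3 w) ∂μ = ∫ w, (f0 w + f1 w + f2 w) ∂μ + ∫ w, f3 w ∂μ :=
    integral_add ((h0.add h1).add h2) h3
  have a2 : ∫ w, (f0 w + f1 w + f2 w) ∂μ = ∫ w, (f0 w + f1 w) ∂μ + ∫ w, f2 w ∂μ :=
    integral_add (h0.add h1) h2
  have a3 : ∫ w, (f0 w + f1 w) ∂μ = ∫ w, f0 w ∂μ + ∫ w, f1 w ∂μ := integral_add h0 h1
  rw [a1, a2, a3]

theorem harm_le (N : ℕ) : ∑ n ∈ Icc 1 N, ((n : ℝ))⁻¹ ≤ 1 + Real.log N := by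
  have h := harmonic_le_one_add_log N
  rw [harmonic_eq_sum_Icc] at h
  push_cast at h
  exact h

theorem edv (hV : VARG) (hD : DIFG) (hL : LAWG) (hLoc : LOCG) (hR : REMG) : EDVG := by
  intro k K hK hkK Z hZ
  have hlow : ∀ᶠ r : ℕ in atTop, r ^ K ≤ Z (r ^ K) ^ k :=
    (tendsto_pow_atTop (by omega : K ≠ 0)).eventually hZ.low
  obtain ⟨R1, hR1⟩ := eventually_atTop.1 hlow
  set A : ℝ := (K : ℝ) * 2 ^ (K - 1) with hA
  have hA0 : 0 ≤ A := by positivity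
  refine ⟨3 * (17 * (A + 1)) + A * (2 * (1 + K * (5 / 3))), max R1 5, ?_⟩
  intro Ω _ μ _ ω hω β hβ R hR'
  have hRr : (1 : ℝ) ≤ R := by exact_mod_cast hR'
  have hgood : ∀ r ∈ Ico (max R1 5) R, 5 ≤ r ∧ r ≤ Z (r ^ K) ∧ r < R := by
    intro r hr
    rw [mem_Ico] at hr
    have h1 : R1 ≤ r := le_trans (le_max_left _ _) hr.1
    have h2 : 5 ≤ r := le_trans (le_max_right _ _) hr.1
    refine ⟨h2, ?_, hr.2⟩
    have h3 := hR1 r h1
    by_contra hcon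
    push Not at hcon
    have h4 : Z (r ^ K) ^ k < r ^ K := by
      rcases Nat.eq_zero_or_pos (Z (r ^ K)) with h0 | h0
      · rw [h0]
        have h5 : 1 < r ^ K := Nat.one_lt_pow (by omega) (by omega)
        rcases Nat.eq_zero_or_pos k with hk | hk
        · rw [hk]
          simpa using h5
        · rw [zero_pow (by omega)]
          omega
      · calc Z (r ^ K) ^ k ≤ Z (r ^ K) ^ K := Nat.pow_le_pow_right h0 hkK
          _ < r ^ K := Nat.pow_lt_pow_left hcon (by omega)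
    omega
  -- one block
  set D : ℕ → ℝ := fun r => ∑ p ∈ Ps (Z (r ^ K)), 2 / (p : ℝ) with hDdef
  have hDmono : ∀ r, D r ≤ D (r + 1) := by
    intro r
    simp only [hDdef]
    apply Finset.sum_le_sum_of_subset_of_nonneg
    · intro p hp
      rw [Helper90.Twin.mem_Ps] at hp ⊢
      have : Z (r ^ K) ≤ Z ((r + 1) ^ K) := hZ.mono (Nat.pow_le_pow_left (Nat.le_succ r) K)
      exact ⟨hp.1, hp.2.1.trans this, hp.2.2⟩
    · intro p _ _
      positivity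
  set S : ℝ := Real.sqrt ((R : ℝ) ^ (2 * K - 3)) with hS
  have hblock : ∀ r ∈ Ico (max R1 5) R, ∫ w, Dev K Z β r (fun p => ω p w) ∂μ
      ≤ 3 * (17 * (A + 1) * S) + A * (R : ℝ) ^ (K - 1) * (D (r + 1) - D r) := by
    intro r hr
    obtain ⟨hr5, hrZ, hrR⟩ := hgood r hr
    have hrR' : (r : ℝ) ≤ R := by exact_mod_cast hrR.le
    have hloc := hLoc K Z β hZ.mono hβ r
    set M := max r (Z ((r + 1) ^ K)) with hM
    have hlen := len_le K r (by omega) (by omega)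
    have hs1 := sumsq A hA0 K r (Z (r ^ K)) (len K r) (Nat.cast_nonneg _) hlen (by omega) (by omega)
      (hZ.le _) hrZ
    have hs2 : Real.sqrt ((((lg r (Z (r ^ K))).map
        (fun q : ℕ => (12 * ((len K r : ℝ) / (q : ℝ) + 1)) ^ 2)).sum)) ≤ 17 * (A + 1) * S := by
      calc _ ≤ Real.sqrt ((17 * (A + 1)) ^ 2 * (R : ℝ) ^ (2 * K - 3)) := by
            apply Real.sqrt_le_sqrt
            refine hs1.trans ?_
            apply mul_le_mul_of_nonneg_left _ (by positivity)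
            exact pow_le_pow_left₀ (Nat.cast_nonneg _) hrR' _
        _ = 17 * (A + 1) * S := by
            rw [Real.sqrt_mul (by positivity), Real.sqrt_sq (by positivity)]
    have hL1 : ∀ q ∈ lg r (Z (r ^ K)), r < q := fun q hq => (mem_lg.1 hq).2.2.2
    have s0 := stat hV hL Ω μ ω hω (lg r (Z (r ^ K))) (lg_nodup _ _) lg_prime (T0 K Z β r) (len K r)
      (T0_bound K Z β r) M (fun a a' h => (hloc a a' h).1)
      (fun q => 12 * ((len K r : ℝ) / (q : ℝ) + 1))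
      (fun q hq a u _ v _ => (hD K Z β hβ r q (lg_prime q hq) (hL1 q hq) a u v).1)
    have s1 := stat hV hL Ω μ ω hω (lg r (Z (r ^ K))) (lg_nodup _ _) lg_prime (T1 K Z β r) (len K r)
      (T1_bound K Z β r) M (fun a a' h => (hloc a a' h).2.1)
      (fun q => 12 * ((len K r : ℝ) / (q : ℝ) + 1))
      (fun q hq a u _ v _ => (hD K Z β hβ r q (lg_prime q hq) (hL1 q hq) a u v).2.1)
    have s2 := stat hV hL Ω μ ω hω (lg r (Z (r ^ K))) (lg_nodup _ _) lg_prime (T2 K Z β r) (len K r)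
      (T2_bound K Z β r) M (fun a a' h => (hloc a a' h).2.2.1)
      (fun q => 12 * ((len K r : ℝ) / (q : ℝ) + 1))
      (fun q hq a u _ v _ => (hD K Z β hβ r q (lg_prime q hq) (hL1 q hq) a u v).2.2)
    have s3 := hL Ω μ ω hω [] List.nodup_nil (by simp) M (Rem K Z β r)
      (fun a a' h => (hloc a a' h).2.2.2.1) ⟨len K r, Rem_bound K Z β r⟩
    have hrem := hR Ω μ ω hω K (by omega) Z β hZ.mono hβ r hr5 hrZ
    have hint : ∫ w, Dev K Z β r (fun p => ω p w) ∂μ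
        = ∫ w, |T0 K Z β r (fun p => ω p w) - Av (lg r (Z (r ^ K))) (T0 K Z β r) (fun p => ω p w)| ∂μ
        + ∫ w, |T1 K Z β r (fun p => ω p w) - Av (lg r (Z (r ^ K))) (T1 K Z β r) (fun p => ω p w)| ∂μ
        + ∫ w, |T2 K Z β r (fun p => ω p w) - Av (lg r (Z (r ^ K))) (T2 K Z β r) (fun p => ω p w)| ∂μ
        + ∫ w, Rem K Z β r (fun p => ω p w) ∂μ := by
      have e : ∀ w, Dev K Z β r (fun p => ω p w)
          = |T0 K Z β r (fun p => ω p w) - Av (lg r (Z (r ^ K))) (T0 K Z β r) (fun p => ω p w)|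
          + |T1 K Z β r (fun p => ω p w) - Av (lg r (Z (r ^ K))) (T1 K Z β r) (fun p => ω p w)|
          + |T2 K Z β r (fun p => ω p w) - Av (lg r (Z (r ^ K))) (T2 K Z β r) (fun p => ω p w)|
          + Rem K Z β r (fun p => ω p w) := fun w => rfl
      simp only [e]
      exact int4 μ _ _ _ _ s0.1 s1.1 s2.1 s3.1
    have hremb : (len K r : ℝ) * ((∑ p ∈ Ps (Z ((r + 1) ^ K)), 2 / (p : ℝ))
        - ∑ p ∈ Ps (Z (r ^ K)), 2 / (p : ℝ)) ≤ A * (R : ℝ) ^ (K - 1) * (D (r + 1) - D r) := by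
      have h1 : (0 : ℝ) ≤ D (r + 1) - D r := by linarith [hDmono r]
      have h2 : (len K r : ℝ) ≤ A * (R : ℝ) ^ (K - 1) := by
        refine hlen.trans ?_
        apply mul_le_mul_of_nonneg_left _ hA0
        exact pow_le_pow_left₀ (Nat.cast_nonneg _) hrR' _
      exact mul_le_mul_of_nonneg_right h2 h1
    rw [hint]
    have t0 := s0.2.trans hs2
    have t1 := s1.2.trans hs2
    have t2 := s2.2.trans hs2
    have t3 := hrem.trans hremb
    linarith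
  have hsum := Finset.sum_le_sum hblock
  refine hsum.trans ?_
  have hsplit : ∑ r ∈ Ico (max R1 5) R, (3 * (17 * (A + 1) * S)
      + A * (R : ℝ) ^ (K - 1) * (D (r + 1) - D r))
      = ((Ico (max R1 5) R).card : ℝ) * (3 * (17 * (A + 1) * S))
        + A * (R : ℝ) ^ (K - 1) * ∑ r ∈ Ico (max R1 5) R, (D (r + 1) - D r) := by
    rw [Finset.sum_add_distrib, Finset.sum_const, nsmul_eq_mul, Finset.mul_sum]
  rw [hsplit]
  have hS0 : 0 ≤ S := Real.sqrt_nonneg _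
  -- first part
  have hcard : ((Ico (max R1 5) R).card : ℝ) ≤ R := by
    rw [Nat.card_Ico]
    exact_mod_cast Nat.sub_le _ _
  have hSR : (R : ℝ) * S ≤ (R : ℝ) ^ ((K : ℝ) - 2 / 5) := by
    have e1 : S = (R : ℝ) ^ ((K : ℝ) - 3 / 2) := by
      rw [hS, Real.sqrt_eq_rpow, ← Real.rpow_natCast, ← Real.rpow_mul (by linarith)]
      congr 1
      rw [Nat.cast_sub (by omega)]
      push_cast
      ring
    have e2 : (R : ℝ) * S = (R : ℝ) ^ ((K : ℝ) - 1 / 2) := by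
      rw [e1]
      nth_rewrite 1 [← Real.rpow_one (R : ℝ)]
      rw [← Real.rpow_add (by linarith)]
      congr 1
      ring
    rw [e2]
    exact Real.rpow_le_rpow_of_exponent_le hRr (by linarith)
  have hp1 : ((Ico (max R1 5) R).card : ℝ) * (3 * (17 * (A + 1) * S))
      ≤ 3 * (17 * (A + 1)) * (R : ℝ) ^ ((K : ℝ) - 2 / 5) := by
    calc ((Ico (max R1 5) R).card : ℝ) * (3 * (17 * (A + 1) * S))
        ≤ R * (3 * (17 * (A + 1) * S)) := mul_le_mul_of_nonneg_right hcard (by positivity)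
      _ = 3 * (17 * (A + 1)) * (R * S) := by ring
      _ ≤ _ := mul_le_mul_of_nonneg_left hSR (by positivity)
  -- second part
  have htel : ∀ a b : ℕ, a ≤ b → ∑ r ∈ Ico a b, (D (r + 1) - D r) = D b - D a := by
    intro a b hab
    exact Finset.sum_Ico_sub D hab
  have hD0 : ∀ r, 0 ≤ D r := fun r => Finset.sum_nonneg (fun p _ => by positivity)
  have hsumD : ∑ r ∈ Ico (max R1 5) R, (D (r + 1) - D r) ≤ D R := by
    rcases le_or_gt (max R1 5) R with h | h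
    · rw [htel _ _ h]
      linarith [hD0 (max R1 5)]
    · rw [Finset.Ico_eq_empty (by omega)]
      simpa using hD0 R
  have hDR : D R ≤ 2 * (1 + K * (5 / 3)) * (R : ℝ) ^ ((3 : ℝ) / 5) := by
    have h1 : D R ≤ ∑ n ∈ Icc 1 (R ^ K), 2 * ((n : ℝ))⁻¹ := by
      simp only [hDdef]
      calc ∑ p ∈ Ps (Z (R ^ K)), 2 / (p : ℝ) = ∑ p ∈ Ps (Z (R ^ K)), 2 * ((p : ℝ))⁻¹ := by
            apply Finset.sum_congr rfl
            intro p _
            rw [div_eq_mul_inv]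
        _ ≤ _ := by
            apply Finset.sum_le_sum_of_subset_of_nonneg
            · intro p hp
              rw [Helper90.Twin.mem_Ps] at hp
              rw [mem_Icc]
              exact ⟨by omega, hp.2.1.trans (hZ.le _)⟩
            · intro p _ _
              positivity
    rw [← Finset.mul_sum] at h1
    have h2 := harm_le (R ^ K)
    have h3 : Real.log ((R ^ K : ℕ) : ℝ) = K * Real.log R := by
      push_cast
      rw [Real.log_pow]
    rw [h3] at h2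
    have h4 : Real.log R ≤ (R : ℝ) ^ ((3 : ℝ) / 5) / (3 / 5) :=
      Real.log_le_rpow_div (by linarith) (by norm_num)
    have h5 : (1 : ℝ) ≤ (R : ℝ) ^ ((3 : ℝ) / 5) := Real.one_le_rpow hRr (by norm_num)
    have h6 : (K : ℝ) * Real.log R ≤ K * ((R : ℝ) ^ ((3 : ℝ) / 5) / (3 / 5)) :=
      mul_le_mul_of_nonneg_left h4 (Nat.cast_nonneg _)
    have h7 : (K : ℝ) * ((R : ℝ) ^ ((3 : ℝ) / 5) / (3 / 5)) = K * (5 / 3) * (R : ℝ) ^ ((3 : ℝ) / 5) := by
      ring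
    calc D R ≤ 2 * ∑ n ∈ Icc 1 (R ^ K), ((n : ℝ))⁻¹ := h1
      _ ≤ 2 * (1 + K * Real.log R) := by linarith
      _ ≤ 2 * ((R : ℝ) ^ ((3 : ℝ) / 5) + K * (5 / 3) * (R : ℝ) ^ ((3 : ℝ) / 5)) := by linarith
      _ = _ := by ring
  have hp2 : A * (R : ℝ) ^ (K - 1) * ∑ r ∈ Ico (max R1 5) R, (D (r + 1) - D r)
      ≤ A * (2 * (1 + K * (5 / 3))) * (R : ℝ) ^ ((K : ℝ) - 2 / 5) := by
    have e : (R : ℝ) ^ (K - 1) * (R : ℝ) ^ ((3 : ℝ) / 5) = (R : ℝ) ^ ((K : ℝ) - 2 / 5) := by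
      rw [← Real.rpow_natCast, ← Real.rpow_add (by linarith)]
      congr 1
      rw [Nat.cast_sub (by omega)]
      push_cast
      ring
    calc A * (R : ℝ) ^ (K - 1) * ∑ r ∈ Ico (max R1 5) R, (D (r + 1) - D r)
        ≤ A * (R : ℝ) ^ (K - 1) * (2 * (1 + K * (5 / 3)) * (R : ℝ) ^ ((3 : ℝ) / 5)) := by
          apply mul_le_mul_of_nonneg_left (hsumD.trans hDR) (by positivity)
      _ = A * (2 * (1 + K * (5 / 3))) * ((R : ℝ) ^ (K - 1) * (R : ℝ) ^ ((3 : ℝ) / 5)) := by ring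
      _ = _ := by rw [e]
  calc _ ≤ 3 * (17 * (A + 1)) * (R : ℝ) ^ ((K : ℝ) - 2 / 5)
        + A * (2 * (1 + K * (5 / 3))) * (R : ℝ) ^ ((K : ℝ) - 2 / 5) := by
        linarith
    _ = _ := by ring

end Pool.Agent.Helper39.BFT
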